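import Pool.Agent.H31R3.YorTukey

set_option autoImplicit false

/-! The minimum of the additivities of the Yorioka ideals is `add(N)`, and the supremum of their
cofinalities is `cof(N)`. -/

namespace Pool.Agent.Results.MP_9fd5aa_lc.MinaddSupcof

open Cardinal MeasureTheory
open scoped ENNReal

/-- The finite binary sequence `s` is an initial segment of `z`. -/
def IsInitial (s : List Bool) (z : ℕ → Bool) : Prop :=
  ∀ (i : ℕ) (h : i < s.length), s[i] = z i

/-- `[σ]_∞`: the points having `σ n` as an initial segment for infinitely many `n`. -/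
def LimInf (σ : ℕ → List Bool) : Set (ℕ → Bool) :=
  {z | {n : ℕ | IsInitial (σ n) z}.Infinite}

/-- `x ≪ y`: for every `k` there is `m` with `x (i ^ k) ≤ y i` for all `i ≥ m`. -/
def FarBelow (x y : ℕ → ℕ) : Prop := ∀ k : ℕ, ∃ m : ℕ, ∀ i : ℕ, m ≤ i → x (i ^ k) ≤ y i

/-- The Yorioka ideal of `f`. -/
def Yorioka (f : ℕ → ℕ) : Set (Set (ℕ → Bool)) :=
  {A | ∃ σ : ℕ → List Bool, FarBelow f (fun n => (σ n).length) ∧ A ⊆ LimInf σ}

/-- The fair coin measure on `{false, true}`. -/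
noncomputable def fairCoin : Measure Bool :=
  (2⁻¹ : ℝ≥0∞) • Measure.dirac false + (2⁻¹ : ℝ≥0∞) • Measure.dirac true

/-- The ideal of Lebesgue null sets of the Cantor space: the sets of (outer) measure zero for the
product of countably many fair coins. -/
def NullIdeal : Set (Set (ℕ → Bool)) :=
  {A | (Measure.infinitePi (fun _ : ℕ => fairCoin)) A = 0}

/-- The additivity of `J`: the least cardinality of a subfamily of `J` whose union is not
in `J`. -/
noncomputable def addOf (J : Set (Set (ℕ → Bool))) : Cardinal.{0} :=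
  sInf {κ | ∃ F : Set (Set (ℕ → Bool)), F ⊆ J ∧ ⋃₀ F ∉ J ∧ #F = κ}

/-- The cofinality of `J`: the least cardinality of a subfamily `F` of `J` such that every member
of `J` is contained in a member of `F`. -/
noncomputable def cofOf (J : Set (Set (ℕ → Bool))) : Cardinal.{0} :=
  sInf {κ | ∃ F : Set (Set (ℕ → Bool)), F ⊆ J ∧ (∀ A ∈ J, ∃ B ∈ F, A ⊆ B) ∧ #F = κ}

theorem yorioka_eq (f : ℕ → ℕ) : Yorioka f = Pool.Agent.H31R3.Yor.I f := by
  ext A
  constructor
  · rintro ⟨σ, h1, h2⟩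
    refine ⟨σ, fun k => Filter.eventually_atTop.2 (h1 k), fun z hz => ?_⟩
    exact Nat.frequently_atTop_iff_infinite.2 (h2 hz)
  · rintro ⟨σ, h1, h2⟩
    refine ⟨σ, fun k => Filter.eventually_atTop.1 (h1 k), fun z hz => ?_⟩
    exact Nat.frequently_atTop_iff_infinite.1 (h2 hz)

theorem result :
    IsLeast {κ | ∃ f : ℕ → ℕ, StrictMono f ∧ κ = addOf (Yorioka f)} (addOf NullIdeal) ∧
    IsLUB {κ | ∃ f : ℕ → ℕ, StrictMono f ∧ κ = cofOf (Yorioka f)} (cofOf NullIdeal) := by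
  have hadd : ∀ f, addOf (Yorioka f) = Pool.Agent.H31R3.Yor.add (Pool.Agent.H31R3.Yor.I f) := by
    intro f; rw [yorioka_eq]; rfl
  have hcof : ∀ f, cofOf (Yorioka f) = Pool.Agent.H31R3.Yor.cof (Pool.Agent.H31R3.Yor.I f) := by
    intro f; rw [yorioka_eq]; rfl
  have hN1 : addOf NullIdeal = Pool.Agent.H31R3.Yor.add Pool.Agent.H31R3.Yor.Nul := rfl
  have hN2 : cofOf NullIdeal = Pool.Agent.H31R3.Yor.cof Pool.Agent.H31R3.Yor.Nul := rfl
  refine ⟨⟨?_, ?_⟩, ?_, ?_⟩
  · have : Nonempty {f : ℕ → ℕ // StrictMono f} := ⟨⟨fun n => n, fun _ _ h => h⟩⟩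
    obtain ⟨f, hf⟩ := ciInf_mem (fun f : {f : ℕ → ℕ // StrictMono f} =>
      Pool.Agent.H31R3.Yor.add (Pool.Agent.H31R3.Yor.I f))
    refine ⟨f, f.2, ?_⟩
    rw [hadd, hN1, ← Pool.Agent.H31R3.Yor.minadd_eq]
    exact hf.symm
  · rintro κ ⟨f, hf, rfl⟩
    rw [hadd, hN1]
    exact Pool.Agent.H31R3.Yor.add_null_le hf
  · rintro κ ⟨f, hf, rfl⟩
    rw [hcof, hN2]
    exact Pool.Agent.H31R3.Yor.cof_le_null hf
  · intro κ hκ
    rw [hN2, ← Pool.Agent.H31R3.Yor.supcof_eq]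
    refine ciSup_le' fun f => ?_
    exact hκ ⟨f, f.2, (hcof f).symm⟩

end Pool.Agent.Results.MP_9fd5aa_lc.MinaddSupcof
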